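import Pool.Agent.H25.INS.NRThreadK
import Pool.Agent.H53.NRGraph

/-!
# The subdivision itself

`SG G D` is obtained from `G` by replacing every edge by a path of length `D`; it has no other
vertices and no other edges. It is a subgraph of the subdivided complete graph `HG V D`.
-/

set_option autoImplicit false

namespace Pool.Agent.H25.INS

open SimpleGraph Pool.Agent.H58.NR Pool.Agent.H53.NR

section

variable {V : Type} [LinearOrder V]

/-- the vertices of the subdivision of `G` -/
def Used (G : SimpleGraph V) (D : ℕ) (w : W V D) : Prop :=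
  (∃ x, w = Sum.inl x) ∨ ∃ u v : V, ∃ i : ℕ, G.Adj u v ∧ w = pt D u v i

/-- the vertex type of the subdivision of `G` -/
abbrev WG (G : SimpleGraph V) (D : ℕ) : Type := {w : W V D // Used G D w}

/-- the subdivision of `G` with all paths of length `D` -/
def SG (G : SimpleGraph V) (D : ℕ) (hD : 2 ≤ D) : SimpleGraph (WG G D) where
  Adj a b := ∃ u v : V, ∃ i : ℕ, G.Adj u v ∧ i < D ∧ a.1 = pt D u v i ∧ b.1 = pt D u v (i + 1)
  symm := ⟨by
    rintro a b ⟨u, v, i, huv, hi, ha, hb⟩
    refine ⟨v, u, D - (i + 1), huv.symm, by omega, ?_, ?_⟩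
    · rw [hb, pt_symm (by omega) (by omega) huv.ne]
      congr 1; omega
    · rw [ha, pt_symm (by omega) (by omega) huv.ne]
      congr 1; omega⟩
  loopless := ⟨by
    rintro a ⟨u, v, i, huv, hi, h1, h2⟩
    exact (HG V D hD).loopless.irrefl a.1 ⟨u, v, i, huv.ne, hi, h1, h2⟩⟩

variable {G : SimpleGraph V} {D : ℕ} {hD : 2 ≤ D}

lemma sg_hg {a b : WG G D} (h : (SG G D hD).Adj a b) : (HG V D hD).Adj a.1 b.1 := by
  obtain ⟨u, v, i, huv, hi, h1, h2⟩ := h
  exact ⟨u, v, i, huv.ne, hi, h1, h2⟩

/-- a branch vertex -/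
def br (G : SimpleGraph V) (D : ℕ) (x : V) : WG G D := ⟨Sum.inl x, Or.inl ⟨x, rfl⟩⟩

lemma br_inj : Function.Injective (br G D) := by
  intro x y h
  have := congrArg Subtype.val h
  exact Sum.inl.inj this

/-- a point of a thread -/
def qt (D : ℕ) {u v : V} (h : G.Adj u v) (i : ℕ) : WG G D :=
  ⟨pt D u v i, Or.inr ⟨u, v, i, h, rfl⟩⟩

lemma qt_zero {u v : V} (h : G.Adj u v) : qt D h 0 = br G D u := by
  apply Subtype.ext
  show pt D u v 0 = Sum.inl u
  exact pt_zero D u v

lemma qt_D (hD : 2 ≤ D) {u v : V} (h : G.Adj u v) : qt D h D = br G D v := by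
  apply Subtype.ext
  show pt D u v D = Sum.inl v
  exact pt_D (by omega) u v

lemma sg_adj (hD : 2 ≤ D) {u v : V} (h : G.Adj u v) (i : ℕ) (hi : i < D) :
    (SG G D hD).Adj (qt D h i) (qt D h (i + 1)) := ⟨u, v, i, h, hi, rfl, rfl⟩

/-- the walk along a thread -/
def sw (hD : 2 ≤ D) {u v : V} (h : G.Adj u v) : (SG G D hD).Walk (br G D u) (br G D v) :=
  (mkWalk (G := SG G D hD) (qt D h) D (sg_adj hD h)).copy (qt_zero h) (qt_D hD h)

lemma sw_support (hD : 2 ≤ D) {u v : V} (h : G.Adj u v) :
    (sw hD h).support = (List.range (D + 1)).map (qt D h) := by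
  rw [sw, Walk.support_copy, mkWalk_support]

lemma mkWalk_length {U : Type} {G : SimpleGraph U} (x : ℕ → U) (n : ℕ)
    (h : ∀ i, i < n → G.Adj (x i) (x (i + 1))) : (mkWalk x n h).length = n := by
  induction n with
  | zero => simp [mkWalk]
  | succ n ih => rw [mkWalk, Walk.length_concat, ih]

lemma mkWalk_edges {U : Type} {G : SimpleGraph U} (x : ℕ → U) (n : ℕ)
    (h : ∀ i, i < n → G.Adj (x i) (x (i + 1))) :
    (mkWalk x n h).edges = (List.range n).map (fun i => s(x i, x (i + 1))) := by
  induction n with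
  | zero => simp [mkWalk]
  | succ n ih =>
    rw [mkWalk, Walk.edges_concat, ih, List.range_succ (n := n)]
    simp

lemma sw_length (hD : 2 ≤ D) {u v : V} (h : G.Adj u v) : (sw hD h).length = D := by
  rw [sw, Walk.length_copy, mkWalk_length]

lemma sw_edges (hD : 2 ≤ D) {u v : V} (h : G.Adj u v) :
    (sw hD h).edges = (List.range D).map (fun i => s(qt D h i, qt D h (i + 1))) := by
  rw [sw, Walk.edges_copy, mkWalk_edges]

lemma sw_isPath (hD : 2 ≤ D) {u v : V} (h : G.Adj u v) : (sw hD h).IsPath := by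
  rw [Walk.isPath_def, sw_support]
  apply List.Nodup.map_on _ List.nodup_range
  intro i hi j hj hij
  rw [List.mem_range] at hi hj
  exact pt_injOn h.ne (by omega) (by omega) hD (congrArg Subtype.val hij)

lemma mem_sw {hD : 2 ≤ D} {u v : V} {h : G.Adj u v} {w : WG G D} :
    w ∈ (sw hD h).support ↔ ∃ i, i ≤ D ∧ pt D u v i = w.1 := by
  rw [sw_support, List.mem_map]
  constructor
  · rintro ⟨i, hi, he⟩
    rw [List.mem_range] at hi
    exact ⟨i, by omega, congrArg Subtype.val he⟩
  · rintro ⟨i, hi, he⟩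
    exact ⟨i, List.mem_range.mpr (by omega), Subtype.ext he⟩

lemma sw_reverse (hD : 2 ≤ D) {u v : V} (h : G.Adj u v) :
    sw hD h.symm = (sw hD h).reverse := by
  apply Walk.ext_support
  rw [Walk.support_reverse, sw_support, sw_support]
  apply List.ext_getElem
  · simp
  · intro i h1 h2
    simp only [List.length_map, List.length_range] at h1
    simp only [List.getElem_map, List.getElem_range, List.getElem_reverse, List.length_map,
      List.length_range]
    apply Subtype.ext
    show pt D v u i = pt D u v (D + 1 - 1 - i)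
    rw [pt_symm (by omega) (by omega) h.ne]
    rfl

end

theorem sub_exists (V : Type) [Fintype V] (G : SimpleGraph V) (K : ℕ)
    (hK : 100 + 3 * Nat.log 2 (Fintype.card V) ≤ K) :
    ∃ (W : Type) (_ : Fintype W) (H : SimpleGraph W) (f : V → W)
      (P : ∀ u v : V, G.Adj u v → H.Walk (f u) (f v)),
      Function.Injective f ∧
      (∀ (u v : V) (h : G.Adj u v), (P u v h).IsPath ∧ (P u v h).length = 100 * K + 11 ∧
        P v u h.symm = (P u v h).reverse) ∧
      (∀ (u v : V) (h : G.Adj u v) (x : V), f x ∈ (P u v h).support → x = u ∨ x = v) ∧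
      (∀ (u v : V) (h : G.Adj u v) (u' v' : V) (h' : G.Adj u' v') (w : W),
        w ∈ (P u v h).support → w ∈ (P u' v' h').support → s(u, v) ≠ s(u', v') →
          ∃ x, w = f x) ∧
      (∀ w : W, (∃ x, w = f x) ∨ ∃ (u v : V) (h : G.Adj u v), w ∈ (P u v h).support) ∧
      (∀ w w' : W, H.Adj w w' → ∃ (u v : V) (h : G.Adj u v), s(w, w') ∈ (P u v h).edges) ∧
      (∀ (C : Type) (L : W → Finset C), (∀ w, (L w).card = 4) →
        ∃ c : W → C, (∀ w, c w ∈ L w) ∧
          ∀ (a b : W) (p : H.Walk a b) (t : ℕ), p.IsPath → 1 ≤ t → p.length + 1 = 2 * t →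
            ∃ i < t, c (p.getVert i) ≠ c (p.getVert (t + i))) := by
  classical
  let _ : LinearOrder V :=
    LinearOrder.lift' (Fintype.equivFin V) (Fintype.equivFin V).injective
  have hnum := numK hK
  have hK100 : 100 ≤ K := by omega
  have hDD : DD K = 100 * K + 11 := rfl
  have hD := hD2 K
  refine ⟨WG G (DD K), Fintype.ofFinite _, SG G (DD K) hD, br G (DD K),
    fun u v h => sw hD h, br_inj, ?_, ?_, ?_, ?_, ?_, ?_⟩
  · intro u v h
    exact ⟨sw_isPath hD h, sw_length hD h, sw_reverse hD h⟩
  · intro u v h x hx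
    rw [mem_sw] at hx
    obtain ⟨i, hi, he⟩ := hx
    have he' : pt (DD K) u v i = Sum.inl x := he
    rcases pt_inl he' with h1 | h1
    · exact Or.inl h1.2.symm
    · exact Or.inr h1.2.symm
  · intro u v h u' v' h' w hw hw' hne
    rw [mem_sw] at hw hw'
    obtain ⟨i, hi, he⟩ := hw
    obtain ⟨i', hi', he'⟩ := hw'
    rcases Nat.eq_zero_or_pos i with h0 | h0
    · refine ⟨u, Subtype.ext ?_⟩
      rw [← he, h0, pt_zero]
      rfl
    · rcases hi.lt_or_eq with h1 | h1
      · exfalso
        rw [← he'] at he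
        apply hne
        rcases pt_inj h0 h1 h.ne h'.ne he with h2 | h2
        · rw [h2.1, h2.2.1]
        · rw [h2.1, h2.2.1, Sym2.eq_swap]
      · refine ⟨v, Subtype.ext ?_⟩
        rw [← he, h1, pt_D (by omega)]
        rfl
  · rintro ⟨w, hw⟩
    rcases hw with ⟨x, rfl⟩ | ⟨u, v, i, h, rfl⟩
    · exact Or.inl ⟨x, rfl⟩
    · right
      refine ⟨u, v, h, ?_⟩
      rw [mem_sw]
      rcases le_or_gt i (DD K) with hi | hi
      · exact ⟨i, hi, rfl⟩
      · refine ⟨DD K, le_rfl, ?_⟩
        show pt (DD K) u v (DD K) = pt (DD K) u v i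
        rw [pt_D (by omega), pt_ge (by omega) hi.le]
  · rintro w w' ⟨u, v, i, h, hi, h1, h2⟩
    refine ⟨u, v, h, ?_⟩
    rw [sw_edges, List.mem_map]
    refine ⟨i, List.mem_range.mpr hi, ?_⟩
    have e1 : qt (DD K) h i = w := Subtype.ext h1.symm
    have e2 : qt (DD K) h (i + 1) = w' := Subtype.ext h2.symm
    rw [e1, e2]
  · intro C L hL
    -- all colours
    let _ : Fintype (WG G (DD K)) := Fintype.ofFinite _
    set U : Finset C := Finset.univ.biUnion L with hU
    have hLU : ∀ w, L w ⊆ U := fun w => Finset.subset_biUnion_of_mem L (Finset.mem_univ w)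
    set e : C → ℕ := fun x => if h : x ∈ U then ((U.equivFin ⟨x, h⟩ : Fin U.card) : ℕ) else 0
      with he
    have hinj : Set.InjOn e (U : Set C) := by
      intro x hx y hy hxy
      have hx' : x ∈ U := hx
      have hy' : y ∈ U := hy
      simp only [he, dif_pos hx', dif_pos hy'] at hxy
      have := U.equivFin.injective (Fin.val_injective hxy)
      exact congrArg Subtype.val this
    set L' : W V (DD K) → Finset ℕ := fun w =>
      if h : Used G (DD K) w then (L ⟨w, h⟩).image e else Finset.range 4 with hL'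
    have hL'4 : ∀ w, (L' w).card = 4 := by
      intro w
      by_cases h : Used G (DD K) w
      · simp only [hL', dif_pos h]
        rw [Finset.card_image_of_injOn (hinj.mono (hLU ⟨w, h⟩)), hL]
      · simp only [hL', dif_neg h, Finset.card_range]
    obtain ⟨c, hc1, hc2⟩ := good_colouring (C := Fintype.card (V × V) * 500) hK100
      (fun c c' Λ forb h1 h2 => threadK hK100 (by
        rw [Fintype.card_prod]
        exact hnum) c c' Λ forb h1 h2) le_rfl L' hL'4
    have hex : ∀ w : WG G (DD K), ∃ x, x ∈ L w ∧ e x = c w.1 := by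
      intro w
      have h1 := hc1 w.1
      simp only [hL', dif_pos w.2, Finset.mem_image] at h1
      exact h1
    choose c0 hc0 hc0' using hex
    refine ⟨c0, hc0, ?_⟩
    intro a b p t hp ht hlen
    by_contra hcon
    push Not at hcon
    refine no_square (x := fun j => (p.getVert j).1) (t := t) hK100 hc2 ht ?_ ?_
    · constructor
      · intro j hj
        exact sg_hg (p.adj_getVert_succ (by omega))
      · intro i j hi hj hij
        exact hp.getVert_injOn (by simp; omega) (by simp; omega) (Subtype.ext hij)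
    · intro i hi
      have h1 := hcon i hi
      show c (p.getVert i).1 = c (p.getVert (i + t)).1
      rw [← hc0', ← hc0', h1, add_comm t i]

end Pool.Agent.H25.INS
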