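import Pool.Agent.H58.NRThread

/-!
# The thread theorem with an explicit range of lengths

The proof is that of `Pool.Agent.H58.NR.threadThm`; only the choice of `K` is left to the user.
-/

set_option autoImplicit false

namespace Pool.Agent.H25.INS

open Finset Pool.Agent.H58.NR

/-- The thread theorem for every `K` satisfying the numerical condition of the counting. -/
theorem threadK {C K : ℕ} (hK : 100 ≤ K)
    (hKC : (((C + 50) * K : ℕ) : ℝ) * (4/7) ^ (K - 19) ≤ 1/10000)
    (c c' : ℕ) (Λ : ℕ → Finset ℕ) (forb : Finset (List ℕ))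
    (hΛ : ∀ i, (Λ i).card = 4) (hforb : forb.card ≤ C * K) :
    ∃ g : ℕ → ℕ, (∀ i, 1 ≤ i → i < DD K → g i ∈ Λ i) ∧ ThreadGood K c c' forb g := by
  -- the two legs
  obtain ⟨d, hd1, hd2⟩ := prefix_for c Λ hΛ
  obtain ⟨d', hd1', hd2'⟩ := prefix_for c' (fun i => Λ (DD K - i)) (fun i => hΛ _)
  set P := mkPar K c Λ forb d with hPdef
  set P' := mkPar K c' (fun i => Λ (DD K - i)) forb d' with hP'def
  have hP : ParOK P d := mkPar_ok hK hΛ hd2 (fun i hi => (hd1 i hi).2)
  have hP' : ParOK P' d' := mkPar_ok hK (fun i => hΛ _) hd2' (fun i hi => (hd1' i hi).2)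
  have hPK : P.K = K := rfl
  have hPK' : P'.K = K := rfl
  have hNK : NN K = 50 * K := rfl
  have hDK : DD K = 100 * K + 11 := rfl
  have hGG : ((forb.card + NN K : ℕ) : ℝ) * (4/7) ^ (K - 19) ≤ 1/10000 := by
    refine le_trans ?_ hKC
    apply mul_le_mul_of_nonneg_right _ (by positivity)
    have : forb.card + NN K ≤ (C + 50) * K := by
      rw [hNK, add_mul]; omega
    exact_mod_cast this
  have n : LegNum P := legNum_of hP hGG
  have n' : LegNum P' := legNum_of hP' hGG
  -- the ends of the block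
  obtain ⟨x, hx, y, hy, hxy, hF⟩ := pair_exists n (A := Λ (NN K + 1)) (B := Λ (NN K + 2))
    (hΛ _) (hΛ _)
  obtain ⟨x', hx', y', hy', hxy', hF'⟩ := pair_exists n' (A := Λ (NN K + 10))
    (B := Λ (NN K + 9)) (hΛ _) (hΛ _)
  obtain ⟨r, r0, r1, r8, r9, hr, hb⟩ := block_exists (fun i => Λ (NN K + 1 + i))
    (fun i _ _ => (hΛ _).ge) x y y' x' hxy (fun e => hxy' e.symm)
  have e0 : rrev r 0 = x' := r9
  have e1 : rrev r 1 = y' := r8
  obtain ⟨l, hl, m, hm, s1, s2, s3⟩ := close_exists hP hP' rfl n n' hb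
    (by rw [r0, r1]; exact hF) (by rw [e0, e1]; exact hF')
  simp only [hPK] at hl hm s1 s2 s3
  refine ⟨GF (NN K) r l m, ?_, ?_, ?_, ?_⟩
  · intro i h1 h2
    by_cases a1 : i ≤ NN K
    · rw [GF_left a1]
      have := letter_S hl (NN K - i) (by omega)
      have e : NN K - 1 - (NN K - i) = i - 1 := by omega
      rw [e] at this
      by_cases h9 : i - 1 < 9
      · simp only [hPdef, mkPar, if_pos h9, mem_singleton] at this
        rw [this]
        have h3 := (hd1 (i - 1) h9).1
        have e2 : i - 1 + 1 = i := by omega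
        rwa [e2] at h3
      · simp only [hPdef, mkPar, if_neg h9] at this
        have e2 : i - 1 + 1 = i := by omega
        rwa [e2] at this
    · by_cases a2 : i ≤ NN K + 10
      · rw [GF_mid (by omega) a2]
        have key : ∀ j, j < 10 → r j ∈ Λ (NN K + 1 + j) := by
          intro j hj
          by_cases j0 : j = 0
          · subst j0; rw [r0]; exact hx
          by_cases j1 : j = 1
          · subst j1; rw [r1]; exact hy
          by_cases j8 : j = 8
          · subst j8; rw [r8]; exact hy'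
          by_cases j9 : j = 9
          · subst j9; rw [r9]; exact hx'
          exact hr j (by omega) (by omega)
        have := key (i - NN K - 1) (by omega)
        have e : NN K + 1 + (i - NN K - 1) = i := by omega
        rwa [e] at this
      · rw [GF_right (by omega)]
        have := letter_S hm (i - NN K - 11) (by omega)
        by_cases h9 : NN K - 1 - (i - NN K - 11) < 9
        · simp only [hP'def, mkPar, if_pos h9, mem_singleton] at this
          rw [this]
          have h3 := (hd1' _ h9).1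
          have e2 : DD K - (NN K - 1 - (i - NN K - 11) + 1) = i := by omega
          rwa [e2] at h3
        · simp only [hP'def, mkPar, if_neg h9] at this
          have e2 : DD K - (NN K - 1 - (i - NN K - 11) + 1) = i := by omega
          rwa [e2] at this
  · intro p i hp hi hf
    have := s1 p i hp hi (by omega)
    unfold Sq at this
    push Not at this
    exact this
  · exact legGood_of hP hl (fun i _ h2 => GF_left h2) s2
  · apply legGood_of hP' hm
    · intro i h1 h2
      simp only [hPK'] at h2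
      have : DD K - i = 2 * NN K + 11 - i := by omega
      rw [this, GF_mirror h1 (by omega), GF_left h2]
      rfl
    · intro t ht1 ht2
      simp only [hPK'] at ht1 ht2
      obtain ⟨b, hb1, hb2, hb3⟩ := s3 t ht1 ht2
      refine ⟨b, hb1, hb2, ?_⟩
      have q1 : DD K - b = 2 * NN K + 11 - b := by omega
      have q2 : DD K - (b + t) = 2 * NN K + 11 - (b + t) := by omega
      rw [q1, q2, GF_mirror (by omega) (by omega), GF_mirror (by omega) (by omega)]
      exact hb3



/-- The numerical condition for all `K` above `100 + 3 log_2 n`. -/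
lemma numK {n K : ℕ} (hK : 100 + 3 * Nat.log 2 n ≤ K) :
    ((((n * n * 500) + 50) * K : ℕ) : ℝ) * (4/7) ^ (K - 19) ≤ 1/10000 := by
  obtain ⟨j, rfl⟩ := Nat.exists_eq_add_of_le hK
  set m := Nat.log 2 n with hm
  have hn : n < 2 ^ (m + 1) := Nat.lt_pow_succ_log_self (by norm_num) n
  have hn2 : (n : ℝ) ≤ 2 ^ (m + 1) := by exact_mod_cast hn.le
  have hnn : (n : ℝ) * n ≤ 4 * 4 ^ m := by
    have h0 : (0 : ℝ) ≤ n := Nat.cast_nonneg n
    have h1 : (n : ℝ) * n ≤ 2 ^ (m + 1) * 2 ^ (m + 1) := mul_le_mul hn2 hn2 h0 (by positivity)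
    have h2 : (2 : ℝ) ^ (m + 1) * 2 ^ (m + 1) = 4 * 4 ^ m := by
      rw [← mul_pow, pow_succ]; norm_num [mul_comm]
    rw [← h2]; exact h1
  have h4 : (1 : ℝ) ≤ 4 ^ m := one_le_pow₀ (by norm_num)
  have hA : (n : ℝ) * n * 500 + 50 ≤ 2050 * 4 ^ m := by nlinarith
  have hB : ((100 + 3 * m + j : ℕ) : ℝ) ≤ 100 * ((1 + 3/100) ^ m * (1 + 1/100) ^ j) := by
    have b1 := one_add_mul_le_pow (a := (3/100 : ℝ)) (by norm_num) m
    have b2 := one_add_mul_le_pow (a := (1/100 : ℝ)) (by norm_num) j
    have c1 : (0 : ℝ) ≤ m := Nat.cast_nonneg m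
    have c2 : (0 : ℝ) ≤ j := Nat.cast_nonneg j
    have b3 : (1 + (m : ℝ) * (3/100)) * (1 + (j : ℝ) * (1/100)) ≤
        (1 + 3/100) ^ m * (1 + 1/100) ^ j :=
      mul_le_mul b1 b2 (by positivity) (by positivity)
    push_cast
    nlinarith [mul_nonneg c1 c2]
  have hE : (4/7 : ℝ) ^ (100 + 3 * m + j - 19) = (4/7) ^ 81 * ((4/7) ^ 3) ^ m * (4/7) ^ j := by
    have : 100 + 3 * m + j - 19 = 81 + 3 * m + j := by omega
    rw [this, pow_add, pow_add, pow_mul]
  have p1 : ((4 : ℝ) * (1 + 3/100) * (4/7) ^ 3) ^ m ≤ 1 :=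
    pow_le_one₀ (by positivity) (by norm_num)
  have p2 : (((1 : ℝ) + 1/100) * (4/7)) ^ j ≤ 1 := pow_le_one₀ (by positivity) (by norm_num)
  have p3 : (2050 * 100 * (4/7 : ℝ) ^ 81) ≤ 1/10000 := by norm_num
  have e1 : (((n * n * 500 + 50) * (100 + 3 * m + j) : ℕ) : ℝ) =
      ((n : ℝ) * n * 500 + 50) * ((100 + 3 * m + j : ℕ) : ℝ) := by push_cast; ring
  rw [e1, hE]
  calc ((n : ℝ) * n * 500 + 50) * ((100 + 3 * m + j : ℕ) : ℝ) *
        ((4/7) ^ 81 * ((4/7) ^ 3) ^ m * (4/7) ^ j)
      ≤ (2050 * 4 ^ m) * (100 * ((1 + 3/100) ^ m * (1 + 1/100) ^ j)) *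
        ((4/7) ^ 81 * ((4/7) ^ 3) ^ m * (4/7) ^ j) := by
        apply mul_le_mul_of_nonneg_right _ (by positivity)
        exact mul_le_mul hA hB (by positivity) (by positivity)
    _ = (2050 * 100 * (4/7 : ℝ) ^ 81) * ((4 * (1 + 3/100) * (4/7) ^ 3) ^ m *
        ((1 + 1/100) * (4/7)) ^ j) := by
        rw [mul_pow, mul_pow, mul_pow]; ring
    _ ≤ (2050 * 100 * (4/7 : ℝ) ^ 81) * (1 * 1) := by
        apply mul_le_mul_of_nonneg_left _ (by positivity)
        exact mul_le_mul p1 p2 (by positivity) (by norm_num)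
    _ ≤ 1/10000 := by rw [one_mul, mul_one]; exact p3

end Pool.Agent.H25.INS
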